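import Pool.Agent.Helper69.SW.St

/-! # Project SW (MP_65faa7, bulk case), module S3: the Green operator on the source set and on the square of the comparison function -/

set_option autoImplicit false

open scoped BigOperators ENNReal Topology
open Pool.LE Pool.NL Pool.CL Pool.CB Filter

namespace Pool.SW

namespace S3M

theorem AL_smul {d : ℕ} (a : ℝ) (w : Zd d → ℝ) (x : Zd d) : AL (fun y => a * w y) x = a * AL w x := by
  unfold AL
  rw [← Finset.mul_sum]
  ring

end S3M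

open S3M in
theorem hS3 (hzt : Stzt) (hTS : StTS) (hRR : StRR) : StS3 := by
  intro d c hd hc
  obtain ⟨cz, C, hcz, hC, n₀, hn₀, hz⟩ := hzt d hd
  set C' : ℝ := max 1 (c * C / cz) with hC'
  have h1C : 1 ≤ C' := le_max_left _ _
  have hC2 : c * C / cz ≤ C' := le_max_right _ _
  have hC3 : c * C ≤ C' * cz := by rwa [div_le_iff₀ hcz] at hC2
  have hC0 : 0 < C' := by linarith
  refine ⟨C', h1C, n₀, hn₀, ?_⟩
  intro n hn L x
  have hn1 : 1 ≤ n := hn₀.trans hn
  have hnr : (0 : ℝ) < (n : ℝ) ^ 2 := by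
    have : (0 : ℝ) < n := by exact_mod_cast hn1
    positivity
  have hz' := hz n hn
  obtain ⟨-, -, hT3, -, -, hT6⟩ := hTS d n L c (by omega) hn1 hc
  have hr1 : ∀ y : Zd d, 1 ≤ rr n y ∧ (y ∈ Bn d n → rr n y = 1) := fun y =>
    ⟨((hRR d n (by omega) hn1).1 y).1, ((hRR d n (by omega) hn1).1 y).2.1⟩
  -- the main inequality
  have hmain : ∀ (f : Zd d → ℝ), (∀ y, f y ≤ C * (rr n y ^ (-(2 : ℝ)) * zt n y)) →
      TS L n c f x ≤ C' * zt n x := by
    intro f hf
    by_cases hx : x ∈ L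
    · refine hT6 (fun y => C' * zt n y) f (fun y _ => mul_nonneg hC0.le (hz' y).1.le) ?_ x hx
      intro y _
      rw [AL_smul]
      obtain ⟨h0, -, -, -, h5⟩ := hz' y
      have hrz : 0 ≤ rr n y ^ (-(2 : ℝ)) * zt n y :=
        mul_nonneg (Real.rpow_nonneg (by linarith [(hr1 y).1]) _) h0.le
      calc c / (n : ℝ) ^ 2 * f y ≤ c / (n : ℝ) ^ 2 * (C * (rr n y ^ (-(2 : ℝ)) * zt n y)) :=
            mul_le_mul_of_nonneg_left (hf y) (by positivity)
        _ = c * C * (rr n y ^ (-(2 : ℝ)) * zt n y) / (n : ℝ) ^ 2 := by ring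
        _ ≤ C' * cz * (rr n y ^ (-(2 : ℝ)) * zt n y) / (n : ℝ) ^ 2 :=
            div_le_div_of_nonneg_right (mul_le_mul_of_nonneg_right hC3 hrz) hnr.le
        _ = C' * (cz / (n : ℝ) ^ 2 * (rr n y ^ (-(2 : ℝ)) * zt n y)) := by ring
        _ ≤ C' * AL (zt n) y := mul_le_mul_of_nonneg_left h5 hC0.le
    · rw [hT3 f x hx]
      exact mul_nonneg hC0.le (hz' x).1.le
  constructor
  · apply hmain
    intro y
    obtain ⟨h0, -, -, h4, -⟩ := hz' y
    unfold sB ind
    split_ifs with hy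
    · rw [(hr1 y).2 hy, Real.one_rpow] at h4
      rw [(hr1 y).2 hy, Real.one_rpow, one_mul]
      exact h4
    · exact mul_nonneg (by linarith) (mul_nonneg (Real.rpow_nonneg (by linarith [(hr1 y).1]) _) h0.le)
  · apply hmain
    intro y
    obtain ⟨h0, -, h3, -, -⟩ := hz' y
    have h6 : rr n y ^ (-(4 : ℝ)) ≤ rr n y ^ (-(2 : ℝ)) :=
      Real.rpow_le_rpow_of_exponent_le (hr1 y).1 (by norm_num)
    calc zt n y ^ 2 = zt n y * zt n y := by ring
      _ ≤ (C * rr n y ^ (-(4 : ℝ))) * zt n y := mul_le_mul_of_nonneg_right h3 h0.le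
      _ ≤ (C * rr n y ^ (-(2 : ℝ))) * zt n y :=
          mul_le_mul_of_nonneg_right (mul_le_mul_of_nonneg_left h6 (by linarith)) h0.le
      _ = C * (rr n y ^ (-(2 : ℝ)) * zt n y) := by ring

end Pool.SW
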