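import Pool.Agent.Helper69.SW.St

/-! # Project SW (MP_65faa7, bulk case), module UU: the minimal solution -/

set_option autoImplicit false

open scoped BigOperators ENNReal Topology
open Pool.LE Pool.NL Pool.CL Pool.CB Filter

namespace Pool.SW

namespace UUM

/-- the Green operator is continuous -/
theorem tendsto_TS {d : ℕ} (L : Finset (Zd d)) (n : ℕ) (c : ℝ) (g : ℕ → Zd d → ℝ) (g' : Zd d → ℝ)
    (h : ∀ y, Tendsto (fun N => g N y) atTop (𝓝 (g' y))) (x : Zd d) :
    Tendsto (fun N => TS L n c (g N) x) atTop (𝓝 (TS L n c g' x)) := by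
  unfold TS ap
  exact (tendsto_finsetSum L fun v _ => (h v).const_mul _).const_mul _

end UUM

open UUM in
theorem hUU (hTS : StTS) (hUp : StUp) : StUU := by
  intro d n L c V f hd hn hc hV hf
  have hco : ∀ (r : ℕ) (x : Zd d), 0 ≤ co (TS L n c) V f r x ∧ (x ∉ L → co (TS L n c) V f r x = 0) :=
    (hUp d n L c V 0 f hd hn hc hV le_rfl hf).1
  have hU0 : ∀ (θ : ℝ), 0 ≤ θ → ∀ N x, 0 ≤ Up (TS L n c) V f N θ x := fun θ hθ N x =>
    ((hUp d n L c V θ f hd hn hc hV hθ hf).2.1 N x).1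
  have hmono : ∀ (θ : ℝ), 0 ≤ θ → ∀ x, Monotone (fun N => Up (TS L n c) V f N θ x) := fun θ hθ x =>
    monotone_nat_of_le_succ fun N => ((hUp d n L c V θ f hd hn hc hV hθ hf).2.1 N x).2
  have hout : ∀ (θ : ℝ) (N : ℕ) (x : Zd d), x ∉ L → Up (TS L n c) V f N θ x = 0 := by
    intro θ N x hx
    unfold Up
    refine Finset.sum_eq_zero fun r _ => ?_
    rw [(hco r x).2 hx, zero_mul, zero_div]
  have hbdd : ∀ θ : ℝ, Bd L n c V f θ → ∀ x, BddAbove (Set.range fun N => Up (TS L n c) V f N θ x) := by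
    intro θ hB x
    by_cases hx : x ∈ L
    · obtain ⟨K, hK⟩ := hB
      refine ⟨K, ?_⟩
      rintro _ ⟨N, rfl⟩
      exact hK N x hx
    · refine ⟨0, ?_⟩
      rintro _ ⟨N, rfl⟩
      exact (hout θ N x hx).le
  refine ⟨?_, ?_, ?_⟩
  · intro θ W hθ hW
    have h5 : ∀ N x, Up (TS L n c) V f N θ x ≤ W x := (hUp d n L c V θ f hd hn hc hV hθ hf).2.2.2.2 W hW
    refine ⟨⟨∑ x ∈ L, W x, fun N x hx => (h5 N x).trans ?_⟩, fun x => ciSup_le fun N => h5 N x⟩
    exact Finset.single_le_sum (fun y _ => hW.1 y) hx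
  · intro θ θ₁ hθ hθ1 hB
    have hle : ∀ N x, Up (TS L n c) V f N θ x ≤ Up (TS L n c) V f N θ₁ x := by
      intro N x
      unfold Up
      refine Finset.sum_le_sum fun r _ => ?_
      have h1 : θ ^ (r + 1) ≤ θ₁ ^ (r + 1) := pow_le_pow_left₀ hθ hθ1 _
      have h2 := (hco r x).1
      have h3 : (0 : ℝ) ≤ (r : ℝ) + 1 := by positivity
      exact div_le_div_of_nonneg_right (mul_le_mul_of_nonneg_left h1 h2) h3
    constructor
    · obtain ⟨K, hK⟩ := hB
      exact ⟨K, fun N x hx => (hle N x).trans (hK N x hx)⟩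
    · intro x
      exact ciSup_mono (hbdd θ₁ hB x) fun N => hle N x
  · intro θ hθ hB
    have htend : ∀ x, Tendsto (fun N => Up (TS L n c) V f N θ x) atTop (𝓝 (UU L n c V f θ x)) :=
      fun x => tendsto_atTop_ciSup (hmono θ hθ x) (hbdd θ hB x)
    have hUout : ∀ x, x ∉ L → UU L n c V f θ x = 0 := by
      intro x hx
      unfold UU
      simp only [hout θ _ x hx]
      exact ciSup_const
    obtain ⟨-, -, hT3, -, hT5, -⟩ := hTS d n L c hd hn hc
    have heq : ∀ x, UU L n c V f θ x =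
        TS L n c (fun y => θ * f y + V / 2 * (UU L n c V f θ y) ^ 2) x := by
      intro x
      by_cases hx : x ∈ L
      · have h1 : Tendsto (fun N => TS L n c (fun y => θ * f y + V / 2 * (Up (TS L n c) V f N θ y) ^ 2) x)
            atTop (𝓝 (TS L n c (fun y => θ * f y + V / 2 * (UU L n c V f θ y) ^ 2) x)) :=
          tendsto_TS L n c _ _ (fun y => (((htend y).pow 2).const_mul (V / 2)).const_add (θ * f y)) x
        have h2 : Tendsto (fun N => Up (TS L n c) V f (N + 1) θ x) atTop (𝓝 (UU L n c V f θ x)) :=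
          (htend x).comp (tendsto_add_atTop_nat 1)
        have h3 : Tendsto (fun N : ℕ => Up (TS L n c) V f (2 * N + 1) θ x) atTop
            (𝓝 (UU L n c V f θ x)) := by
          refine (htend x).comp (tendsto_atTop_mono (f := fun N : ℕ => N) (fun N => ?_) tendsto_id)
          omega
        have h4 := tendsto_of_tendsto_of_tendsto_of_le_of_le h2 h3
          (fun N => (hUp d n L c V θ f hd hn hc hV hθ hf).2.2.1 N x)
          (fun N => (hUp d n L c V θ f hd hn hc hV hθ hf).2.2.2.1 N x)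
        exact tendsto_nhds_unique h4 h1
      · rw [hUout x hx, hT3 _ x hx]
    refine ⟨fun x => ⟨Real.iSup_nonneg fun N => hU0 θ hθ N x, hUout x⟩, fun N x =>
      le_ciSup (hbdd θ hB x) N, htend, fun x _ => heq x, fun x hx => ?_⟩
    have h6 : UU L n c V f θ = TS L n c (fun y => θ * f y + V / 2 * (UU L n c V f θ y) ^ 2) := funext heq
    have h7 := hT5 (fun y => θ * f y + V / 2 * (UU L n c V f θ y) ^ 2) x hx
    rw [← h6] at h7
    exact h7

end Pool.SW
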